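import Mathlib

namespace Pool.Agent.Work.MP_ae9baf_co.Frac

open Classical in
/-- The fractional chromatic number: the least total weight of a nonnegative weighting of the
independent sets in which the sets through each vertex have total weight at least one. -/
noncomputable def fracChrom {V : Type} [Fintype V] (G : SimpleGraph V) : ℝ :=
  sInf {x : ℝ | ∃ w : Finset V → ℝ, (∀ I, 0 ≤ w I) ∧
    (∀ I, w I ≠ 0 → G.IsIndepSet (I : Set V)) ∧
    (∀ v, 1 ≤ ∑ I, if v ∈ I then w I else 0) ∧ x = ∑ I, w I}

end Pool.Agent.Work.MP_ae9baf_co.Frac
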