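import Mathlib
import Pool.Agent.Work.MP_ae9baf_co.Frac.Def
import Pool.Agent.Work.MP_ae9baf_co.Main

-- merged part: Pool.Agent.Work.MP_ae9baf_co.Frac.Chain
section
/-! Chains mod 2 on families of finite sets, and three lemmas on their acyclicity. -/

namespace Pool.Agent.Work.MP_ae9baf_co.Frac

open Classical Finset

set_option linter.unusedSectionVars false

variable {V : Type*} [Fintype V]

/-- The boundary of a chain mod 2. -/
noncomputable def bd (c : Finset V → ZMod 2) (t : Finset V) : ZMod 2 :=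
  ∑ v, if v ∈ t then 0 else c (insert v t)

/-- The chain `c` lives on `m`-element members of `K`. -/
def Supp (K : Set (Finset V)) (m : ℕ) (c : Finset V → ZMod 2) : Prop :=
  ∀ t, c t ≠ 0 → t ∈ K ∧ t.card = m

/-- Cycles on fewer than `N` vertices are boundaries. -/
def Acyc (K : Set (Finset V)) (N : ℕ) : Prop :=
  ∀ m < N, ∀ z, Supp K m z → bd z = 0 → ∃ c, Supp K (m + 1) c ∧ bd c = z

theorem add_self2 (x : ZMod 2) : x + x = 0 := CharTwo.add_self_eq_zero x

theorem eq_of_add_eq_zero2 {x y : ZMod 2} (h : x + y = 0) : x = y := by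
  have : x = x + (y + y) := by rw [add_self2, add_zero]
  rw [this, ← add_assoc, h, zero_add]

theorem bd_add (c d : Finset V → ZMod 2) : bd (c + d) = bd c + bd d := by
  funext t
  simp only [bd, Pi.add_apply, ← sum_add_distrib]
  refine sum_congr rfl fun v _ => ?_
  split_ifs <;> simp

theorem bd_zero : bd (0 : Finset V → ZMod 2) = 0 := by
  funext t
  simp [bd]

theorem bd_sum {ι : Type*} (s : Finset ι) (c : ι → Finset V → ZMod 2) :
    bd (∑ i ∈ s, c i) = ∑ i ∈ s, bd (c i) := by
  induction s using Finset.induction_on with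
  | empty => simpa using bd_zero
  | insert i s hi ih => rw [sum_insert hi, sum_insert hi, bd_add, ih]

theorem bd_bd (c : Finset V → ZMod 2) : bd (bd c) = 0 := by
  funext t
  let F : V × V → ZMod 2 := fun p =>
    if p.1 ∈ t ∨ p.2 ∈ t ∨ p.1 = p.2 then 0 else c (insert p.2 (insert p.1 t))
  have h1 : bd (bd c) t = ∑ p : V × V, F p := by
    rw [Fintype.sum_prod_type]
    refine sum_congr rfl fun v _ => ?_
    by_cases hv : v ∈ t
    · simp [F, hv]
    · rw [if_neg hv, bd]
      refine sum_congr rfl fun w _ => ?_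
      simp only [F, hv, false_or, mem_insert]
      by_cases h1 : w = v
      · simp [h1]
      · have h2 : ¬ v = w := fun e => h1 e.symm
        simp [h1, h2]
  rw [h1]
  refine sum_involution (fun p _ => p.swap) (fun p _ => ?_) (fun p _ hp e => hp ?_)
    (fun _ _ => mem_univ _) (fun _ _ => rfl)
  · have : F p.swap = F p := by
      simp only [F, Prod.fst_swap, Prod.snd_swap]
      by_cases h : p.1 ∈ t ∨ p.2 ∈ t ∨ p.1 = p.2
      · rw [if_pos h, if_pos (by tauto)]
      · rw [if_neg h, if_neg (by tauto), insert_comm]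
    rw [this, add_self2]
  · have : p.1 = p.2 := (congrArg Prod.snd e)
    simp [F, this]

theorem Supp.add {K : Set (Finset V)} {m : ℕ} {c d : Finset V → ZMod 2} (hc : Supp K m c)
    (hd : Supp K m d) : Supp K m (c + d) := fun t ht => by
  by_cases h : c t = 0
  · exact hd t (by simpa [h] using ht)
  · exact hc t h

theorem Supp.sum {ι : Type*} {K : Set (Finset V)} {m : ℕ} (s : Finset ι)
    (c : ι → Finset V → ZMod 2) (hc : ∀ i ∈ s, Supp K m (c i)) : Supp K m (∑ i ∈ s, c i) :=
  fun t ht => by
    rw [Finset.sum_apply] at ht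
    obtain ⟨i, hi, h⟩ := exists_ne_zero_of_sum_ne_zero ht
    exact hc i hi t h

theorem exists_of_bd_ne {c : Finset V → ZMod 2} {t : Finset V} (h : bd c t ≠ 0) :
    ∃ v, v ∉ t ∧ c (insert v t) ≠ 0 := by
  obtain ⟨v, -, hv⟩ := exists_ne_zero_of_sum_ne_zero h
  by_cases hvt : v ∈ t
  · simp [hvt] at hv
  · exact ⟨v, hvt, by simpa [hvt] using hv⟩

/-- Cone lemma. -/
theorem acyc_of_cone {K : Set (Finset V)} {N : ℕ} (v : V)
    (h : ∀ t ∈ K, t.card < N → insert v t ∈ K) : Acyc K N := by
  intro m hm z hz hcyc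
  refine ⟨fun u => if v ∈ u then z (u.erase v) else 0, fun u hu => ?_, ?_⟩
  · by_cases hv : v ∈ u
    · simp only [hv, if_true] at hu
      obtain ⟨h1, h2⟩ := hz _ hu
      refine ⟨?_, by rw [← h2, card_erase_add_one hv]⟩
      have := h _ h1 (h2 ▸ hm)
      rwa [insert_erase hv] at this
    · simp [hv] at hu
  · funext t
    by_cases hv : v ∈ t
    · have h1 := congrFun hcyc (t.erase v)
      simp only [bd, Pi.zero_apply] at h1 ⊢
      rw [← add_sum_erase _ _ (mem_univ v)] at h1 ⊢
      rw [if_neg (notMem_erase v t), insert_erase hv] at h1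
      rw [if_pos hv, zero_add, eq_of_add_eq_zero2 h1]
      refine sum_congr rfl fun w hw => ?_
      have hwv : w ≠ v := (mem_erase.1 hw).1
      by_cases hwt : w ∈ t
      · simp [hwt, hwv]
      · have : (insert w t).erase v = insert w (t.erase v) := erase_insert_of_ne hwv
        simp [hwt, hv, this]
    · simp only [bd]
      rw [sum_eq_single v]
      · simp [hv]
      · intro w _ hwv
        have : ¬ v = w := fun e => hwv e.symm
        simp [hv, this]
      · simp

/-- Join with the fixed set `f`. -/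
noncomputable def jn (f : Finset V) (c : Finset V → ZMod 2) (u : Finset V) : ZMod 2 :=
  if f ⊆ u then c (u \ f) else 0

/-- Join with the boundary of `f`. -/
noncomputable def jb (f : Finset V) (c : Finset V → ZMod 2) : Finset V → ZMod 2 :=
  bd (jn f c) + jn f (bd c)

theorem jn_zero (f : Finset V) : jn f (0 : Finset V → ZMod 2) = 0 := by
  funext u
  simp [jn]

theorem bd_jb (f : Finset V) (c : Finset V → ZMod 2) : bd (jb f c) = jb f (bd c) := by
  simp only [jb, bd_add, bd_bd, jn_zero, zero_add, add_zero]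

theorem jb_superset {f : Finset V} {c : Finset V → ZMod 2} (hc : ∀ t, c t ≠ 0 → Disjoint t f)
    {u : Finset V} (hu : f ⊆ u) : jb f c u = 0 := by
  simp only [jb, Pi.add_apply, jn, if_pos hu, bd, ← sum_add_distrib]
  refine sum_eq_zero fun v _ => ?_
  by_cases hv : v ∈ u
  · by_cases hf : v ∈ f
    · have : c (insert v (u \ f)) = 0 := by
        by_contra h
        exact disjoint_left.1 (hc _ h) (mem_insert_self _ _) hf
      simp [hv, hf, this]
    · simp [hv, hf]
  · have hf : v ∉ f := fun h => hv (hu h)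
    have h1 : f ⊆ insert v u := hu.trans (subset_insert _ _)
    have h2 : insert v u \ f = insert v (u \ f) := insert_sdiff_of_notMem _ hf
    simp [hv, h1, h2, add_self2]

/-- Explosion of the set `f`. -/
theorem acyc_of_explode {K' : Set (Finset V)} (hK' : ∀ t ∈ K', ∀ u ⊆ t, u ∈ K') (f : Finset V)
    {N : ℕ} (h1 : Acyc K' N) (h2 : Acyc {t | Disjoint t f ∧ t ∪ f ∈ K'} (N + 1 - f.card)) :
    Acyc {t | t ∈ K' ∧ ¬ f ⊆ t} N := by
  set L : Set (Finset V) := {t | Disjoint t f ∧ t ∪ f ∈ K'} with hL
  set K : Set (Finset V) := {t | t ∈ K' ∧ ¬ f ⊆ t} with hK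
  have hjb : ∀ (n : ℕ) (μ : Finset V → ZMod 2), Supp L n μ →
      ∀ u, jb f μ u ≠ 0 → u ∈ K ∧ u.card + 1 = n + f.card := by
    intro n μ hμ u hu
    have hfu : ¬ f ⊆ u := fun h => hu (jb_superset (fun t ht => (hμ t ht).1.1) h)
    simp only [jb, Pi.add_apply] at hu
    rw [show jn f (bd μ) u = 0 from if_neg hfu, add_zero] at hu
    obtain ⟨v, hv, hne⟩ := exists_of_bd_ne hu
    by_cases hf : f ⊆ insert v u
    · rw [jn, if_pos hf] at hne
      obtain ⟨⟨-, h3⟩, h4⟩ := hμ _ hne
      rw [sdiff_union_of_subset hf] at h3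
      refine ⟨⟨hK' _ h3 _ (subset_insert _ _), hfu⟩, ?_⟩
      rw [← h4, card_sdiff_add_card_eq_card hf, card_insert_of_notMem hv]
    · exact (hne (if_neg hf)).elim
  intro m hm z hz hcyc
  obtain ⟨c, hc1, hc2⟩ := h1 m hm z (fun t ht => ⟨(hz t ht).1.1, (hz t ht).2⟩) hcyc
  let l : Finset V → ZMod 2 := fun t => if Disjoint t f then c (t ∪ f) else 0
  have hl : ∀ t, l t ≠ 0 → t ∈ L ∧ t.card + f.card = m + 1 := by
    intro t ht
    by_cases hd : Disjoint t f
    · simp only [l, if_pos hd] at ht
      obtain ⟨h3, h4⟩ := hc1 _ ht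
      exact ⟨⟨hd, h3⟩, by rw [← h4, card_union_of_disjoint hd]⟩
    · exact (ht (if_neg hd)).elim
  have hc0 : Supp K (m + 1) (c + jn f l) := by
    intro u hu
    by_cases hf : f ⊆ u
    · refine (hu ?_).elim
      simp only [Pi.add_apply, jn, if_pos hf, l, if_pos sdiff_disjoint, sdiff_union_of_subset hf,
        add_self2]
    · simp only [Pi.add_apply, jn, if_neg hf, add_zero] at hu
      exact ⟨⟨(hc1 u hu).1, hf⟩, (hc1 u hu).2⟩
  have key : z = bd (c + jn f l) + jb f l + jn f (bd l) := by
    funext u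
    simp only [jb, bd_add, hc2, Pi.add_apply]
    have e1 := add_self2 (bd (jn f l) u)
    have e2 := add_self2 (jn f (bd l) u)
    linear_combination (-1 : ZMod 2) * e1 - e2
  have hbl : bd l = 0 := by
    funext t
    by_cases hd : Disjoint t f
    · have hf : f ⊆ t ∪ f := subset_union_right
      have e := congrFun key (t ∪ f)
      have e1 : z (t ∪ f) = 0 := by
        by_contra h
        exact (hz _ h).1.2 hf
      have e2 : bd (c + jn f l) (t ∪ f) = 0 := by
        by_contra h
        obtain ⟨v, -, hv⟩ := exists_of_bd_ne h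
        exact (hc0 _ hv).1.2 (hf.trans (subset_insert _ _))
      have e3 : jb f l (t ∪ f) = 0 := jb_superset (fun t ht => (hl t ht).1.1) hf
      rw [Pi.add_apply, Pi.add_apply, e1, e2, e3, zero_add, zero_add, jn, if_pos hf,
        union_sdiff_cancel_right hd] at e
      exact e.symm
    · by_contra h
      obtain ⟨v, -, hv⟩ := exists_of_bd_ne h
      exact hd ((hl _ hv).1.1.mono_left (subset_insert _ _))
  rw [hbl, jn_zero, add_zero] at key
  by_cases hn : f.card ≤ m + 1
  · obtain ⟨μ, hμ1, hμ2⟩ := h2 (m + 1 - f.card) (by omega) l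
      (fun t ht => ⟨(hl t ht).1, by have := (hl t ht).2; omega⟩) hbl
    refine ⟨c + jn f l + jb f μ, hc0.add fun u hu => ?_, ?_⟩
    · obtain ⟨h3, h4⟩ := hjb _ μ hμ1 u hu
      exact ⟨h3, by omega⟩
    · rw [bd_add, bd_jb, hμ2, ← key]
  · have hl0 : l = 0 := by
      funext t
      by_contra h
      have := (hl t h).2
      omega
    refine ⟨c + jn f l, hc0, ?_⟩
    rw [key]
    simp only [hl0, jb, jn_zero, bd_zero, add_zero]

end Pool.Agent.Work.MP_ae9baf_co.Frac
end

-- merged part: Pool.Agent.Work.MP_ae9baf_co.Frac.Hall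
section
/-! The homological Hall theorem mod 2, and the largest-edge-first explosion bound. -/

namespace Pool.Agent.Work.MP_ae9baf_co.Frac

open Classical Finset

set_option linter.unusedSectionVars false

variable {V C : Type*} [Fintype V]

/-- Parity of the number of facets of `u` with colour set `B`. -/
theorem parity_facets (σ : V → C) (B : Finset C) (i : C) (hi : i ∉ B) (u : Finset V)
    (hcard : u.card = B.card + 1) (hsub : u.image σ ⊆ insert i B) :
    (∑ v ∈ u, if (u.erase v).image σ = B then (1 : ZMod 2) else 0) =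
      if u.image σ = insert i B then 1 else 0 := by
  rw [sum_boole]
  by_cases h1 : u.image σ = insert i B
  · rw [if_pos h1]
    have hinj : Set.InjOn σ u := card_image_iff.1 (by rw [h1, card_insert_of_notMem hi, hcard])
    obtain ⟨x, hx, hxi⟩ := mem_image.1 (h1 ▸ mem_insert_self i B : i ∈ u.image σ)
    have : u.filter (fun v => (u.erase v).image σ = B) = {x} := by
      ext v
      simp only [mem_filter, mem_singleton]
      constructor
      · rintro ⟨hv, h⟩
        by_contra hne
        exact hi (h ▸ mem_image.2 ⟨x, mem_erase.2 ⟨fun e => hne e.symm, hx⟩, hxi⟩)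
      · rintro rfl
        refine ⟨hx, ?_⟩
        ext j
        simp only [mem_image, mem_erase]
        constructor
        · rintro ⟨w, ⟨hw1, hw2⟩, rfl⟩
          have : σ w ∈ insert i B := h1 ▸ mem_image_of_mem σ hw2
          exact (mem_insert.1 this).resolve_left fun e => hw1 (hinj hw2 hx (e.trans hxi.symm))
        · intro hj
          obtain ⟨w, hw, hwj⟩ := mem_image.1 (h1 ▸ mem_insert_of_mem hj : j ∈ u.image σ)
          exact ⟨w, ⟨fun e => hi (by rw [← hxi, ← e, hwj]; exact hj), hw⟩, hwj⟩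
    rw [this]
    simp
  · rw [if_neg h1]
    rcases (u.filter (fun v => (u.erase v).image σ = B)).eq_empty_or_nonempty with h | ⟨x, hx⟩
    · rw [h]; simp
    obtain ⟨hx, hxB⟩ := mem_filter.1 hx
    have himg : u.image σ = insert (σ x) B := by
      rw [← hxB, ← image_insert, insert_erase hx]
    have hxmem : σ x ∈ B := by
      have : σ x ∈ insert i B := hsub (mem_image_of_mem σ hx)
      exact (mem_insert.1 this).resolve_left fun e => h1 (e ▸ himg)
    have hinj : Set.InjOn σ (u.erase x) := card_image_iff.1 (by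
      rw [hxB, card_erase_of_mem hx, hcard]; rfl)
    obtain ⟨y, hy, hyx⟩ := mem_image.1 (hxB ▸ hxmem : σ x ∈ (u.erase x).image σ)
    obtain ⟨hyne, hyu⟩ := mem_erase.1 hy
    rw [insert_eq_of_mem hxmem] at himg
    have : u.filter (fun v => (u.erase v).image σ = B) = {x, y} := by
      ext v
      simp only [mem_filter, mem_insert, mem_singleton]
      constructor
      · rintro ⟨hv, h⟩
        by_contra hne
        push Not at hne
        have hvB : σ v ∈ B := himg ▸ mem_image_of_mem σ hv
        obtain ⟨w, hw, hwv⟩ := mem_image.1 (h ▸ hvB : σ v ∈ (u.erase v).image σ)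
        obtain ⟨hw1, hw2⟩ := mem_erase.1 hw
        have hv' : v ∈ u.erase x := mem_erase.2 ⟨hne.1, hv⟩
        by_cases hwx : w = x
        · exact hne.2 (hinj hv' hy (by rw [hyx, ← hwx, hwv]))
        · exact hw1 (hinj (mem_erase.2 ⟨hwx, hw2⟩ : w ∈ u.erase x) hv' hwv)
      · rintro (rfl | rfl)
        · exact ⟨hx, hxB⟩
        · refine ⟨hyu, Subset.antisymm (himg ▸ image_subset_image (erase_subset _ _)) ?_⟩
          intro j hj
          obtain ⟨w, hw, hwj⟩ := mem_image.1 (himg ▸ hj : j ∈ u.image σ)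
          by_cases hwv : w = v
          · exact mem_image.2 ⟨x, mem_erase.2 ⟨fun e => hyne e.symm, hx⟩, by
              rw [← hyx, ← hwv, hwj]⟩
          · exact mem_image.2 ⟨w, mem_erase.2 ⟨hwv, hw⟩, hwj⟩
    rw [this, card_pair (fun e => hyne e.symm)]
    rfl

theorem sum_bd (p : Finset V → Prop) [DecidablePred p] (c : Finset V → ZMod 2) :
    (∑ t, if p t then bd c t else 0) =
      ∑ u, c u * ∑ v ∈ u, if p (u.erase v) then (1 : ZMod 2) else 0 := by
  have h1 : (∑ t, if p t then bd c t else 0) =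
      ∑ v, ∑ t ∈ univ.filter (fun t : Finset V => v ∉ t), if p t then c (insert v t) else 0 := by
    simp only [sum_filter]
    rw [sum_comm]
    refine sum_congr rfl fun t _ => ?_
    by_cases h : p t
    · simp only [h, if_true, bd, ite_not]
    · simp [h]
  have h2 : (∑ u, c u * ∑ v ∈ u, if p (u.erase v) then (1 : ZMod 2) else 0) =
      ∑ v, ∑ u ∈ univ.filter (fun u : Finset V => v ∈ u), if p (u.erase v) then c u else 0 := by
    simp only [sum_filter]
    rw [sum_comm]
    refine sum_congr rfl fun u _ => ?_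
    rw [sum_ite_mem, univ_inter, mul_sum]
    refine sum_congr rfl fun v _ => ?_
    split_ifs <;> simp
  rw [h1, h2]
  refine sum_congr rfl fun v _ => ?_
  refine sum_bij' (fun t _ => insert v t) (fun u _ => u.erase v) (fun t _ => by simp)
    (fun u _ => by simp) (fun t ht => erase_insert (mem_filter.1 ht).2)
    (fun u hu => insert_erase (mem_filter.1 hu).2) (fun t ht => ?_)
  rw [erase_insert (mem_filter.1 ht).2]

/-- Members of `K` whose colours all lie in `B`. -/
def restr (σ : V → C) (K : Set (Finset V)) (B : Finset C) : Set (Finset V) :=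
  {t | t ∈ K ∧ ∀ v ∈ t, σ v ∈ B}

theorem exists_chains (σ : V → C) (K : Set (Finset V)) (h0 : ∅ ∈ K) (P : Finset C)
    (h : ∀ B ⊆ P, B.Nonempty → Acyc (restr σ K B) B.card) (n : ℕ) :
    ∃ c : Finset C → Finset V → ZMod 2, c ∅ ∅ = 1 ∧ ∀ B ⊆ P, B.card ≤ n →
      Supp (restr σ K B) B.card (c B) ∧ bd (c B) = ∑ i ∈ B, c (B.erase i) := by
  induction n with
  | zero =>
    refine ⟨fun _ t => if t = ∅ then 1 else 0, by simp, fun B _ hB => ?_⟩
    obtain rfl : B = ∅ := card_eq_zero.1 (by omega)
    refine ⟨fun t ht => ?_, ?_⟩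
    · obtain rfl : t = ∅ := by
        by_contra h'
        simp [h'] at ht
      exact ⟨⟨h0, by simp⟩, rfl⟩
    · funext t
      simp [bd]
  | succ n ih =>
    obtain ⟨c, hc0, hc⟩ := ih
    have hex : ∀ B : Finset C, ∃ d : Finset V → ZMod 2, B ⊆ P → B.card = n + 1 →
        Supp (restr σ K B) B.card d ∧ bd d = ∑ i ∈ B, c (B.erase i) := by
      intro B
      by_cases hB : B ⊆ P ∧ B.card = n + 1
      · obtain ⟨hBP, hBn⟩ := hB
        have he : ∀ i ∈ B, (B.erase i).card = n := fun i hi => by
          rw [card_erase_of_mem hi, hBn]; rfl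
        have hc' := fun i (hi : i ∈ B) =>
          hc (B.erase i) ((erase_subset _ _).trans hBP) (he i hi).le
        obtain ⟨d, hd1, hd2⟩ := h B hBP (card_pos.1 (by omega)) n (by omega)
          (∑ i ∈ B, c (B.erase i))
          (Supp.sum _ _ fun i hi t ht => by
            obtain ⟨⟨h1, h2⟩, h3⟩ := (hc' i hi).1 t ht
            exact ⟨⟨h1, fun v hv => mem_of_mem_erase (h2 v hv)⟩, h3.trans (he i hi)⟩)
          (by
            rw [bd_sum, sum_congr rfl fun i hi => (hc' i hi).2, sum_sigma']
            refine sum_involution (fun p _ => ⟨p.2, p.1⟩) (fun p _ => ?_) (fun p hp _ e => ?_)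
              (fun p hp => ?_) (fun _ _ => rfl)
            · funext t
              simp only [Pi.add_apply, Pi.zero_apply]
              rw [erase_right_comm, add_self2]
            · exact (mem_erase.1 (mem_sigma.1 hp).2).1 (congrArg Sigma.fst e)
            · obtain ⟨h1, h2⟩ := mem_sigma.1 hp
              obtain ⟨h2, h3⟩ := mem_erase.1 h2
              exact mem_sigma.2 ⟨h3, mem_erase.2 ⟨fun e => h2 e.symm, h1⟩⟩)
        exact ⟨d, fun _ _ => ⟨hBn ▸ hd1, hd2⟩⟩
      · exact ⟨0, fun h1 h2 => (hB ⟨h1, h2⟩).elim⟩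
    choose d hd using hex
    refine ⟨fun B => if B.card ≤ n then c B else d B, by simpa using hc0, fun B hBP hB => ?_⟩
    have hs : (∑ i ∈ B, if (B.erase i).card ≤ n then c (B.erase i) else d (B.erase i)) =
        ∑ i ∈ B, c (B.erase i) :=
      sum_congr rfl fun i hi => if_pos (by rw [card_erase_of_mem hi]; omega)
    simp only [hs]
    by_cases hn : B.card ≤ n
    · rw [if_pos hn]; exact hc B hBP hn
    · rw [if_neg hn]; exact hd B hBP (by omega)

/-- Homological Hall theorem. -/
theorem hall (σ : V → C) (K : Set (Finset V)) (h0 : ∅ ∈ K) (P : Finset C)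
    (h : ∀ B ⊆ P, B.Nonempty → Acyc (restr σ K B) B.card) : ∃ t ∈ K, t.image σ = P := by
  obtain ⟨c, hc0, hc⟩ := exists_chains σ K h0 P h P.card
  have hc' := fun B (hB : B ⊆ P) => hc B hB (card_le_card hB)
  have key : ∀ B : Finset C, B ⊆ P → (∑ t, if t.image σ = B then c B t else 0) = 1 := by
    intro B
    induction B using Finset.induction_on with
    | empty =>
      intro _
      rw [sum_eq_single ∅]
      · simpa using hc0
      · intro t _ ht
        simp [ht]
      · simp
    | insert i B hi ih =>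
      intro hB
      obtain ⟨h1, h2⟩ := hc' _ hB
      have e := sum_bd (fun t => t.image σ = B) (c (insert i B))
      have e1 : (∑ t, if t.image σ = B then bd (c (insert i B)) t else 0) = 1 := by
        rw [← ih ((subset_insert _ _).trans hB)]
        refine sum_congr rfl fun t _ => ?_
        by_cases ht : t.image σ = B
        · rw [if_pos ht, if_pos ht, h2, Finset.sum_apply, sum_insert hi, erase_insert hi,
            sum_eq_zero, add_zero]
          intro j hj
          by_contra hne
          obtain ⟨⟨-, h3⟩, -⟩ := (hc' _ ((erase_subset _ _).trans hB)).1 t hne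
          obtain ⟨w, hw, rfl⟩ := mem_image.1 (ht ▸ hj : j ∈ t.image σ)
          exact notMem_erase _ _ (h3 w hw)
        · rw [if_neg ht, if_neg ht]
      rw [← e1, e]
      refine sum_congr rfl fun u _ => ?_
      by_cases hu : c (insert i B) u = 0
      · simp [hu]
      · obtain ⟨⟨-, h3⟩, h4⟩ := h1 u hu
        have := parity_facets σ B i hi u (by rw [h4, card_insert_of_notMem hi])
          (fun j hj => by
            obtain ⟨w, hw, rfl⟩ := mem_image.1 hj
            exact h3 w hw)
        rw [this]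
        split_ifs <;> simp
  have hne : (∑ t, if t.image σ = P then c P t else 0) ≠ 0 := by
    rw [key P Subset.rfl]; exact one_ne_zero
  obtain ⟨t, -, ht⟩ := exists_ne_zero_of_sum_ne_zero hne
  by_cases htP : t.image σ = P
  · rw [if_pos htP] at ht
    exact ⟨t, ((hc' P Subset.rfl).1 t ht).1.1, htP⟩
  · exact (ht (if_neg htP)).elim

/-- Subsets of `X` that contain no member of `E`. -/
def face (X : Finset V) (E : Finset (Finset V)) : Set (Finset V) :=
  {t | t ⊆ X ∧ ∀ g ∈ E, ¬ g ⊆ t}

theorem sum_tele (p : ℕ) :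
    ∑ j ∈ range p, (1 : ℝ) / ((j + 1) * (j + 2)) = 1 - 1 / (p + 1) := by
  induction p with
  | zero => simp
  | succ p ih =>
    rw [sum_range_succ, ih]
    push_cast
    field_simp
    ring

/-- Largest edge first. -/
theorem game (M : ℕ) (e : ℕ) : ∀ (X : Finset V) (E : Finset (Finset V)) (N : ℕ), E.card ≤ e →
    ¬ Acyc (face X E) N → ∃ Z : ℕ → Finset V,
      ∑ j ∈ range M, ((Z j).card : ℝ) / ((j + 1) * (j + 2)) ≤ N - 1 ∧
      ∀ j, ∀ v ∈ X, ∃ g ∈ E, v ∈ g ∧ (g.erase v \ Z j).card ≤ j := by
  have hcov : ∀ (X : Finset V) (E : Finset (Finset V)) (N : ℕ), ¬ Acyc (face X E) N →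
      1 ≤ N ∧ ∀ v ∈ X, ∃ g ∈ E, v ∈ g := by
    intro X E N hN
    refine ⟨?_, fun v hv => ?_⟩
    · by_contra h
      exact hN fun m hm => by omega
    · by_contra h
      push Not at h
      refine hN (acyc_of_cone v fun t ht _ => ⟨insert_subset hv ht.1, fun g hg hgt => ?_⟩)
      exact ht.2 g hg ((subset_insert_iff_of_notMem (h g hg)).1 hgt)
  induction e with
  | zero =>
    intro X E N hE hN
    obtain ⟨h1, h2⟩ := hcov X E N hN
    obtain rfl : E = ∅ := card_eq_zero.1 (by omega)
    refine ⟨fun _ => ∅, ?_, fun j v hv => ?_⟩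
    · have : (1 : ℝ) ≤ N := by exact_mod_cast h1
      simpa using this
    · obtain ⟨g, hg, -⟩ := h2 v hv
      simp at hg
  | succ e ih =>
    intro X E N hE hN
    rcases E.eq_empty_or_nonempty with rfl | hne
    · exact ih X ∅ N (by simp) hN
    obtain ⟨hN1, hall⟩ := hcov X E N hN
    obtain ⟨f, hf, hmax⟩ := exists_max_image E card hne
    have hcard : (E.erase f).card ≤ e := by rw [card_erase_of_mem hf]; omega
    by_cases hdel : Acyc (face X (E.erase f)) N
    swap
    · obtain ⟨Z, h1, h2⟩ := ih X _ N hcard hdel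
      refine ⟨Z, h1, fun j v hv => ?_⟩
      obtain ⟨g, hg, h3⟩ := h2 j v hv
      exact ⟨g, mem_of_mem_erase hg, h3⟩
    have hK : face X E = {t | t ∈ face X (E.erase f) ∧ ¬ f ⊆ t} := by
      ext t
      constructor
      · exact fun ht => ⟨⟨ht.1, fun g hg => ht.2 g (mem_of_mem_erase hg)⟩, ht.2 f hf⟩
      · refine fun ht => ⟨ht.1.1, fun g hg => ?_⟩
        by_cases hgf : g = f
        · exact hgf ▸ ht.2
        · exact ht.1.2 g (mem_erase.2 ⟨hgf, hg⟩)
    have hdown : ∀ t ∈ face X (E.erase f), ∀ u ⊆ t, u ∈ face X (E.erase f) :=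
      fun t ht u hu => ⟨hu.trans ht.1, fun g hg hgu => ht.2 g hg (hgu.trans hu)⟩
    have hL : ¬ Acyc {t | Disjoint t f ∧ t ∪ f ∈ face X (E.erase f)} (N + 1 - f.card) :=
      fun h => hN (hK ▸ acyc_of_explode hdown f hdel h)
    have hfX : f ⊆ X := by
      by_contra h
      refine hL fun m _ z hz _ => ⟨0, fun t ht => (ht rfl).elim, ?_⟩
      rw [bd_zero]
      funext t
      by_contra h'
      exact h (subset_union_right.trans (hz t fun e => h' e.symm).1.2.1)
    have hL' : {t | Disjoint t f ∧ t ∪ f ∈ face X (E.erase f)} =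
        face (X \ f) ((E.erase f).image (· \ f)) := by
      ext t
      constructor
      · rintro ⟨h1, h2, h3⟩
        refine ⟨subset_sdiff.2 ⟨subset_union_left.trans h2, h1⟩, fun g hg hgt => ?_⟩
        obtain ⟨g', hg', rfl⟩ := mem_image.1 hg
        exact h3 g' hg' (by rw [union_comm]; exact sdiff_le_iff.1 hgt)
      · rintro ⟨h1, h2⟩
        obtain ⟨h1, h3⟩ := subset_sdiff.1 h1
        refine ⟨h3, union_subset h1 hfX, fun g hg hgt => h2 _ (mem_image_of_mem _ hg) ?_⟩
        exact sdiff_le_iff.2 (by rw [union_comm] at hgt; exact hgt)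
    rw [hL'] at hL
    obtain ⟨Z, h1, h2⟩ := ih _ _ _ (card_image_le.trans hcard) hL
    have hN2 := (hcov _ _ _ hL).1
    refine ⟨fun j => if j + 1 < f.card then Z j ∪ f else ∅, ?_, fun j v hv => ?_⟩
    · have e1 : ∑ j ∈ range M, (((if j + 1 < f.card then Z j ∪ f else ∅).card : ℕ) : ℝ) /
          ((j + 1) * (j + 2)) ≤ ∑ j ∈ range M, (((Z j).card : ℝ) / ((j + 1) * (j + 2)) +
            if j + 1 < f.card then (f.card : ℝ) * (1 / ((j + 1) * (j + 2))) else 0) := by
        refine sum_le_sum fun j _ => ?_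
        split_ifs
        · rw [mul_one_div, ← add_div]
          gcongr
          exact_mod_cast card_union_le _ _
        · simp only [card_empty, Nat.cast_zero, zero_div, add_zero]
          positivity
      have e2 : (∑ j ∈ range M, if j + 1 < f.card then
          (f.card : ℝ) * (1 / ((j + 1) * (j + 2))) else 0) ≤
          ∑ j ∈ range (f.card - 1), (f.card : ℝ) * (1 / ((j + 1) * (j + 2))) := by
        rw [← sum_filter]
        refine sum_le_sum_of_subset_of_nonneg (fun j hj => ?_) fun j _ _ => by positivity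
        have := (mem_filter.1 hj).2
        exact mem_range.2 (by omega)
      rw [← mul_sum, sum_tele] at e2
      rw [sum_add_distrib] at e1
      rw [Nat.cast_sub (by omega)] at h1
      have hf1 : 1 ≤ f.card := by
        by_contra h
        have : f = ∅ := card_eq_zero.1 (by omega)
        refine hN fun m _ z hz _ => ⟨0, fun t ht => (ht rfl).elim, ?_⟩
        rw [bd_zero]
        funext t
        by_contra h'
        exact (hz t fun e => h' e.symm).1.2 f hf (this ▸ empty_subset _)
      rw [Nat.cast_sub hf1] at e2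
      have e3 : (f.card : ℝ) * (1 - 1 / ((f.card : ℝ) - (1 : ℕ) + 1)) = f.card - 1 := by
        have : (f.card : ℝ) ≠ 0 := by positivity
        push_cast
        rw [sub_add_cancel]
        field_simp
      push_cast at h1 e3 e2
      linarith
    · by_cases hj : j + 1 < f.card
      · simp only [if_pos hj]
        by_cases hvf : v ∈ f
        · refine ⟨f, hf, hvf, ?_⟩
          rw [sdiff_eq_empty_iff_subset.2 ((erase_subset _ _).trans subset_union_right)]
          simp
        · obtain ⟨g, hg, h3, h4⟩ := h2 j v (mem_sdiff.2 ⟨hv, hvf⟩)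
          obtain ⟨g', hg', rfl⟩ := mem_image.1 hg
          refine ⟨g', mem_of_mem_erase hg', (mem_sdiff.1 h3).1, le_trans (card_le_card ?_) h4⟩
          intro x hx
          simp only [mem_sdiff, mem_erase, mem_union, not_or] at hx ⊢
          tauto
      · obtain ⟨g, hg, hvg⟩ := hall v hv
        refine ⟨g, hg, hvg, ?_⟩
        simp only [if_neg hj, sdiff_empty, card_erase_of_mem hvg]
        have := hmax g hg
        omega

end Pool.Agent.Work.MP_ae9baf_co.Frac
end

-- merged part: Pool.Agent.Work.MP_ae9baf_co.Frac.Main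
section
/-! Chromatic discrepancy against the fractional chromatic number. -/

namespace Pool.Agent.Work.MP_ae9baf_co.Frac

open Classical Finset

set_option linter.unusedSectionVars false

variable {V C : Type} [Fintype V] {G : SimpleGraph V}

theorem fracChrom_le {ι : Type*} (s : Finset ι) (S : ι → Finset V) (c : ι → ℝ)
    (hc : ∀ j ∈ s, 0 ≤ c j) (hS : ∀ j ∈ s, G.IsIndepSet (S j : Set V))
    (hcov : ∀ v, 1 ≤ ∑ j ∈ s, if v ∈ S j then c j else 0) : fracChrom G ≤ ∑ j ∈ s, c j := by
  refine csInf_le ⟨0, ?_⟩ ⟨fun I => ∑ j ∈ s with S j = I, c j, fun I => ?_, fun I hI => ?_,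
    fun v => ?_, ?_⟩
  · rintro x ⟨w, h1, -, -, rfl⟩
    exact sum_nonneg fun I _ => h1 I
  · exact sum_nonneg fun j hj => hc j (mem_filter.1 hj).1
  · obtain ⟨j, hj, -⟩ := exists_ne_zero_of_sum_ne_zero hI
    obtain ⟨h1, h2⟩ := mem_filter.1 hj
    exact h2 ▸ hS j h1
  · refine (hcov v).trans (le_of_eq ?_)
    rw [← sum_fiberwise s S]
    refine sum_congr rfl fun I _ => ?_
    by_cases hv : v ∈ I
    · rw [if_pos hv]
      exact sum_congr rfl fun j hj => if_pos ((mem_filter.1 hj).2 ▸ hv)
    · rw [if_neg hv]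
      exact sum_eq_zero fun j hj => if_neg ((mem_filter.1 hj).2 ▸ hv)
  · exact (sum_fiberwise s S c).symm

theorem fracChrom_le_of_colorable {n : ℕ} (h : G.Colorable n) : fracChrom G ≤ n := by
  obtain ⟨c⟩ := h
  have := fracChrom_le (G := G) (univ : Finset (Fin n)) (fun i => univ.filter fun v => c v = i)
    (fun _ => 1) (fun _ _ => zero_le_one)
    (fun i _ x hx y hy _ hxy => c.valid hxy (by
      simp only [coe_filter, mem_univ, true_and, Set.mem_ofPred_eq] at hx hy
      rw [hx, hy]))
    (fun v => by simp)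
  simpa using this

/-- A multiple domination of the classes in `B` bounds the fractional chromatic number. -/
theorem cover {s : ℕ} (hloc : ∀ v, (G.induce (insert v (G.neighborSet v))).Colorable s)
    (σ : V → C) (hσ : ∀ x y, G.Adj x y → σ x ≠ σ y) (B : Finset C) (Z : Finset V) (b : ℕ)
    (hb : 1 ≤ b) (hZ : ∀ x, σ x ∈ B → b ≤ (Z.filter fun z => G.Adj x z).card) :
    fracChrom G ≤ ((univ.image σ \ B).card : ℝ) + Z.card * ((s - 1 : ℕ) : ℝ) / b := by
  obtain ⟨loc, h1, h2⟩ := exists_loc hloc
  have hb' : (0 : ℝ) < b := by exact_mod_cast hb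
  let P : Finset (C ⊕ (Σ _ : V, Fin s)) :=
    (univ.image σ \ B).disjSum (Z.sigma fun z => univ.erase (loc z z))
  have := fracChrom_le (G := G) P
    (Sum.elim (fun i => univ.filter fun v => σ v = i)
      (fun p => univ.filter fun v => G.Adj v p.1 ∧ loc p.1 v = p.2))
    (Sum.elim (fun _ => 1) (fun _ => 1 / b)) ?_ ?_ ?_
  · refine this.trans (le_of_eq ?_)
    simp only [P, sum_disjSum, Sum.elim_inl, Sum.elim_inr, sum_const, card_sigma, nsmul_eq_mul,
      mul_one]
    rw [sum_congr rfl (g := fun _ => s - 1) (fun z _ => by simp)]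
    simp only [sum_const, smul_eq_mul, Nat.cast_mul]
    ring
  · rintro (i | p) -
    · exact zero_le_one
    · simp only [Sum.elim_inr]
      positivity
  · rintro (i | p) - x hx y hy - hxy
    · simp only [Sum.elim_inl, coe_filter, mem_univ, true_and, Set.mem_ofPred_eq] at hx hy
      exact hσ x y hxy (hx.trans hy.symm)
    · simp only [Sum.elim_inr, coe_filter, mem_univ, true_and, Set.mem_ofPred_eq] at hx hy
      exact h2 _ x y hx.1 hy.1 hxy (hx.2.trans hy.2.symm)
  · intro v
    simp only [P, sum_disjSum, Sum.elim_inl, Sum.elim_inr, mem_filter, mem_univ, true_and]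
    by_cases hv : σ v ∈ B
    · refine le_add_of_nonneg_of_le (sum_nonneg fun _ _ => by positivity) ?_
      rw [sum_sigma]
      have e : ∀ z ∈ Z, (∑ i ∈ univ.erase (loc z z),
          if G.Adj v z ∧ loc z v = i then (1 : ℝ) / b else 0) =
          if G.Adj v z then (1 : ℝ) / b else 0 := by
        intro z _
        by_cases hz : G.Adj v z
        · simp only [hz, true_and, if_true, sum_ite_eq, mem_erase, mem_univ, and_true]
          exact if_pos (h1 z v hz)
        · simp [hz]
      rw [sum_congr rfl e, ← sum_filter, sum_const, nsmul_eq_mul, mul_one_div, one_le_div hb']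
      exact_mod_cast hZ v hv
    · refine le_add_of_le_of_nonneg ?_ (sum_nonneg fun _ _ => by positivity)
      simp [hv]

/-- `t` induces an `m`-colourable subgraph. -/
def Col (G : SimpleGraph V) (m : ℕ) (t : Finset V) : Prop :=
  ∃ c : V → ℕ, (∀ x ∈ t, c x < m) ∧ ∀ x ∈ t, ∀ y ∈ t, G.Adj x y → c x ≠ c y

theorem Col.mono {m : ℕ} {t u : Finset V} (h : Col G m t) (hu : u ⊆ t) : Col G m u := by
  obtain ⟨c, h1, h2⟩ := h
  exact ⟨c, fun x hx => h1 x (hu hx), fun x hx y hy => h2 x (hu hx) y (hu hy)⟩

theorem Col.extend {m : ℕ} {t : Finset V} {v : V} (h : Col G m (t.erase v))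
    (hv : ((t.erase v).filter fun z => G.Adj v z).card < m) : Col G m t := by
  obtain ⟨c, h1, h2⟩ := h
  obtain ⟨i, hi, hi'⟩ : ∃ i ∈ range m, i ∉ ((t.erase v).filter fun z => G.Adj v z).image c :=
    exists_mem_notMem_of_card_lt_card (by rw [card_range]; exact card_image_le.trans_lt hv)
  refine ⟨Function.update c v i, fun x hx => ?_, fun x hx y hy hxy => ?_⟩
  · by_cases e : x = v
    · rw [e, Function.update_self]; exact mem_range.1 hi
    · rw [Function.update_of_ne e]; exact h1 x (mem_erase.2 ⟨e, hx⟩)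
  · by_cases e : x = v <;> by_cases e' : y = v
    · exact (G.irrefl (e ▸ e' ▸ hxy)).elim
    · rw [e, Function.update_self, Function.update_of_ne e']
      exact fun h => hi' (mem_image.2 ⟨y, mem_filter.2 ⟨mem_erase.2 ⟨e', hy⟩, e ▸ hxy⟩, h.symm⟩)
    · rw [e', Function.update_self, Function.update_of_ne e]
      exact fun h => hi' (mem_image.2 ⟨x, mem_filter.2 ⟨mem_erase.2 ⟨e, hx⟩, e' ▸ hxy.symm⟩, h⟩)
    · rw [Function.update_of_ne e, Function.update_of_ne e']
      exact h2 x (mem_erase.2 ⟨e, hx⟩) y (mem_erase.2 ⟨e', hy⟩) hxy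

theorem col_of_card_le {m : ℕ} (t : Finset V) (h : t.card ≤ m) : Col G m t := by
  induction t using Finset.induction_on with
  | empty => exact ⟨fun _ => 0, by simp, by simp⟩
  | insert v t hv ih =>
    rw [card_insert_of_notMem hv] at h
    refine Col.extend (v := v) (by rw [erase_insert hv]; exact ih (by omega)) ?_
    rw [erase_insert hv]
    exact (card_filter_le _ _).trans_lt (by omega)

theorem exists_critical {m : ℕ} (t : Finset V) (h : ¬ Col G m t) :
    ∃ g ⊆ t, ¬ Col G m g ∧ ∀ v ∈ g, Col G m (g.erase v) := by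
  induction t using Finset.strongInduction with
  | H t ih =>
    by_cases h' : ∀ v ∈ t, Col G m (t.erase v)
    · exact ⟨t, Subset.rfl, h, h'⟩
    · push Not at h'
      obtain ⟨v, hv, h1⟩ := h'
      obtain ⟨g, hg, h2⟩ := ih _ (erase_ssubset hv) h1
      exact ⟨g, hg.trans (erase_subset _ _), h2⟩

theorem Col.colorable {m : ℕ} {t : Finset V} (h : Col G m t) :
    (G.induce (t : Set V)).Colorable m := by
  obtain ⟨c, h1, h2⟩ := h
  exact ⟨SimpleGraph.Coloring.mk (fun x => ⟨c x.1, h1 _ x.2⟩)
    fun {x y} hxy e => h2 _ x.2 _ y.2 hxy (congrArg Fin.val e)⟩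

/-- The gain of the game per unit of domination. -/
noncomputable def lam (m : ℕ) : ℝ := ∑ j ∈ range m, ((m : ℝ) - j) / ((j + 1) * (j + 2))

theorem lam_succ (m : ℕ) : lam (m + 1) = lam m + (1 - 1 / (m + 2)) := by
  have h := sum_tele (m + 1)
  have e : ∑ j ∈ range (m + 1), ((m : ℝ) - j) / ((j + 1) * (j + 2)) = lam m := by
    rw [sum_range_succ, sub_self, zero_div, add_zero, lam]
  rw [lam, ← e]
  push_cast at h ⊢
  rw [show (m : ℝ) + 2 = m + 1 + 1 by ring, ← h, ← sum_add_distrib]
  exact sum_congr rfl fun j _ => by ring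

theorem lam_eq (m : ℕ) : lam m = m + 1 - (harmonic (m + 1) : ℝ) := by
  induction m with
  | zero => simp [lam, harmonic]
  | succ m ih =>
    rw [lam_succ, ih, harmonic_succ (m + 1)]
    push_cast
    rw [show (m : ℝ) + 1 + 1 = m + 2 by ring, one_div]
    ring

theorem lam_add (r d : ℕ) : lam r + d * (1 - 1 / (r + 2)) ≤ lam (r + d) := by
  induction d with
  | zero => simp
  | succ d ih =>
    rw [← add_assoc, lam_succ]
    have : (1 : ℝ) / ((r + d : ℕ) + 2) ≤ 1 / (r + 2) := by
      push_cast
      gcongr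
      linarith [(Nat.cast_nonneg d : (0 : ℝ) ≤ d)]
    push_cast at this ⊢
    linarith

/-- The key inequality when no `m`-colourable set carries all colours. -/
theorem exists_block {s m : ℕ} (hloc : ∀ v, (G.induce (insert v (G.neighborSet v))).Colorable s)
    (σ : V → C) (hσ : ∀ x y, G.Adj x y → σ x ≠ σ y)
    (hno : ∀ t, Col G m t → t.image σ ≠ univ.image σ) :
    ∃ n : ℕ, m ≤ n ∧ lam m * (fracChrom G - (univ.image σ).card + n + 1) ≤
      ((s - 1 : ℕ) : ℝ) * n := by
  obtain ⟨B, hBP, hBne, hB⟩ : ∃ B ⊆ univ.image σ, B.Nonempty ∧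
      ¬ Acyc (restr σ {t | Col G m t} B) B.card := by
    by_contra h
    push Not at h
    obtain ⟨t, ht, h'⟩ := hall σ {t | Col G m t} (col_of_card_le ∅ (by simp)) _ h
    exact hno t ht h'
  have hm : m < B.card := by
    by_contra h
    obtain ⟨i, hi⟩ := hBne
    obtain ⟨v, -, rfl⟩ := mem_image.1 (hBP hi)
    refine hB (acyc_of_cone v fun t ht htc => ⟨col_of_card_le _ ?_, fun x hx => ?_⟩)
    · exact (card_insert_le _ _).trans (by omega)
    · rcases mem_insert.1 hx with rfl | hx
      · exact hi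
      · exact ht.2 x hx
  let X : Finset V := univ.filter fun v => σ v ∈ B
  let E : Finset (Finset V) := univ.filter fun g => ¬ Col G m g ∧ ∀ v ∈ g, Col G m (g.erase v)
  have hface : restr σ {t | Col G m t} B = face X E := by
    ext t
    constructor
    · rintro ⟨h1, h2⟩
      exact ⟨fun v hv => mem_filter.2 ⟨mem_univ _, h2 v hv⟩,
        fun g hg hgt => (mem_filter.1 hg).2.1 (Col.mono h1 hgt)⟩
    · rintro ⟨h1, h2⟩
      refine ⟨?_, fun v hv => (mem_filter.1 (h1 hv)).2⟩
      by_contra h
      obtain ⟨g, hg, h3⟩ := exists_critical t h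
      exact h2 g (mem_filter.2 ⟨mem_univ _, h3⟩) hg
  rw [hface] at hB
  obtain ⟨Z, hZ1, hZ2⟩ := game m E.card X E B.card le_rfl hB
  refine ⟨B.card - 1, by omega, ?_⟩
  rw [Nat.cast_sub (by omega), Nat.cast_one, add_assoc, sub_add_cancel, lam, sum_mul]
  refine le_trans (sum_le_sum fun j hj => ?_)
    ((mul_sum _ _ _).ge.trans (mul_le_mul_of_nonneg_left hZ1 (Nat.cast_nonneg _)))
  have hj := mem_range.1 hj
  have hc := cover hloc σ hσ B (Z j) (m - j) (by omega) fun x hx => by
    obtain ⟨g, hg, hxg, h1⟩ := hZ2 j x (mem_filter.2 ⟨mem_univ _, hx⟩)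
    obtain ⟨h2, h3⟩ := (mem_filter.1 hg).2
    have h4 : m ≤ ((g.erase x).filter fun z => G.Adj x z).card := by
      by_contra h
      exact h2 (Col.extend (h3 x hxg) (by omega))
    have h5 : ((g.erase x).filter fun z => G.Adj x z) ⊆
        ((Z j).filter fun z => G.Adj x z) ∪ (g.erase x \ Z j) := by
      intro z hz
      simp only [mem_filter, mem_union, mem_sdiff] at hz ⊢
      tauto
    have := (card_le_card h5).trans (card_union_le _ _)
    omega
  rw [card_sdiff_of_subset hBP, Nat.cast_sub (card_le_card hBP), Nat.cast_sub hj.le] at hc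
  have hpos : (0 : ℝ) < m - j := by
    have : (j : ℝ) < m := by exact_mod_cast hj
    linarith
  have h6 : ((m : ℝ) - j) * (fracChrom G - (univ.image σ).card + B.card) ≤
      ((s - 1 : ℕ) : ℝ) * (Z j).card := by
    rw [← sub_le_iff_le_add', le_div_iff₀ hpos] at hc
    linarith
  rw [div_mul_eq_mul_div, ← mul_div_assoc]
  gcongr

theorem thmF [Nonempty V] {s r : ℕ} (hs : 3 ≤ s) (hr : harmonic (r + 1) < (r : ℚ) + 2 - s)
    (hloc : ∀ v, (G.induce (insert v (G.neighborSet v))).Colorable s)
    (σ : V → C) (hσ : ∀ x y, G.Adj x y → σ x ≠ σ y) :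
    ∃ H : Set V, H.Nonempty ∧ fracChrom G - r <
      ((σ '' H).ncard : ℝ) - ((G.induce H).chromaticNumber.toNat : ℝ) := by
  have hlam : ((s - 1 : ℕ) : ℝ) < lam r := by
    rw [lam_eq, Nat.cast_sub (by omega)]
    have : ((harmonic (r + 1) : ℚ) : ℝ) < (((r : ℚ) + 2 - s : ℚ) : ℝ) := by exact_mod_cast hr
    push_cast at this ⊢
    linarith
  have hrs : s + 1 ≤ r := by
    by_contra h
    have h3 : lam 3 ≤ 2 := by
      rw [lam_eq]
      norm_num [harmonic, sum_range_succ]
    have hle : ∀ d : ℕ, lam (3 + d) ≤ 2 + d := by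
      intro d
      induction d with
      | zero => simpa using h3
      | succ d ih =>
        rw [← add_assoc, lam_succ]
        have : (0 : ℝ) ≤ 1 / ((3 + d : ℕ) + 2) := by positivity
        push_cast at this ⊢
        linarith
    have h1 := lam_add r (s - r)
    have h2 := hle (s - 3)
    rw [show r + (s - r) = s by omega] at h1
    rw [show 3 + (s - 3) = s by omega] at h2
    have h4 : (0 : ℝ) ≤ ((s - r : ℕ) : ℝ) * (1 - 1 / (r + 2)) := by
      refine mul_nonneg (Nat.cast_nonneg _) (sub_nonneg.2 ?_)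
      rw [div_le_one (by positivity)]
      linarith [(Nat.cast_nonneg r : (0 : ℝ) ≤ r)]
    rw [Nat.cast_sub (by omega)] at hlam h2
    push_cast at hlam h2
    linarith
  set k := (univ.image σ).card with hk
  by_cases hky : (k : ℝ) ≤ fracChrom G
  · rcases b_vertex σ hσ with ⟨v, hv⟩ | ⟨n, hn1, hn2⟩
    · obtain ⟨H, h1, h2⟩ := of_b_vertex hloc σ hσ v hv
      refine ⟨H, h1, ?_⟩
      have h3 : fracChrom G ≤ G.chromaticNumber.toNat :=
        fracChrom_le_of_colorable (G.colorable_chromaticNumber_of_fintype)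
      have h4 : ((G.chromaticNumber.toNat : ℝ)) - s ≤
          ((σ '' H).ncard : ℝ) - ((G.induce H).chromaticNumber.toNat : ℝ) := by exact_mod_cast h2
      have h5 : (s : ℝ) + 1 ≤ r := by exact_mod_cast hrs
      linarith
    · have h1 := fracChrom_le_of_colorable hn2
      have h2 : (n : ℝ) + 1 ≤ k := by exact_mod_cast hn1
      linarith
  push Not at hky
  obtain ⟨d, hd1, hd2⟩ : ∃ d : ℕ, (d : ℝ) < k - fracChrom G ∧ k - fracChrom G ≤ d + 1 := by
    have hpos : 0 < ⌈k - fracChrom G⌉₊ := Nat.ceil_pos.2 (by linarith)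
    refine ⟨⌈k - fracChrom G⌉₊ - 1, Nat.lt_ceil.1 (by omega), ?_⟩
    rw [Nat.cast_sub hpos, Nat.cast_one, sub_add_cancel]
    exact Nat.le_ceil _
  by_cases hex : ∃ t, Col G (r + d) t ∧ t.image σ = univ.image σ
  · obtain ⟨t, h1, h2⟩ := hex
    refine ⟨t, coe_nonempty.2 (image_nonempty.1 (h2 ▸ univ_nonempty.image σ)), ?_⟩
    have h3 : ((G.induce (t : Set V)).chromaticNumber.toNat : ℝ) ≤ r + d := by
      exact_mod_cast toNat_le h1.colorable
    rw [ncard_image, h2]
    linarith
  push Not at hex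
  obtain ⟨n, hn1, hn2⟩ := exists_block hloc σ hσ hex
  exfalso
  have h1 := lam_add r d
  rw [← hk] at hn2
  have hn : (r : ℝ) + d ≤ n := by exact_mod_cast hn1
  have ha : ((s - 1 : ℕ) : ℝ) + 2 ≤ r := by exact_mod_cast (show s - 1 + 2 ≤ r by omega)
  have ha0 : (0 : ℝ) ≤ ((s - 1 : ℕ) : ℝ) := Nat.cast_nonneg _
  have hd0 : (0 : ℝ) ≤ d := Nat.cast_nonneg _
  generalize ((s - 1 : ℕ) : ℝ) = a at *
  have h2 : (r : ℝ) * (1 / (r + 2)) ≤ 1 := by
    rw [mul_one_div, div_le_one (by positivity)]
    linarith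
  have h2' : (1 : ℝ) / (r + 2) ≤ 1 := by
    rw [div_le_one (by positivity)]
    linarith
  generalize (1 : ℝ) / (r + 2) = e at *
  generalize lam (r + d) = L at *
  have hL : a < L := by nlinarith
  have h3 : a * (r + d) < r * L := by nlinarith
  have h4 : L * (n - d) ≤ a * n := by nlinarith
  nlinarith

end Pool.Agent.Work.MP_ae9baf_co.Frac
end
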